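import Pool.Agent.R745.CDN.Defs

namespace R745CD
open Finset H825CD

theorem t1N_na {ι : Type} [Fintype ι] [DecidableEq ι] {Q : ℕ} (A : Finset (ι → Fin (Q + 1)))
    (j : ι) (t : Fin (Q + 1)) : na A j t + cnt A j {t} = A.card := by
  unfold na cnt
  rw [add_comm, ← Finset.card_filter_add_card_filter_not (s := A) (fun a => a j ∈ ({t} : Finset _))]
  congr 2
  ext a
  simp

theorem tN_coord (_hs : S_symm) (h1 : S_split) (h2 : S_struct) (h3 : N_dom) (h4 : N_nc)
    (h5 : S_FF) : N_coord := by
  intro ι _ _ Q S δ M A B hQ hQ2 hctx j hj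
  have hdist' : ∀ b ∈ B, ∀ a ∈ A, hammingDist b a = δ := fun b hb a ha => by
    rw [hammingDist_comm]; exact hctx.dist a ha b hb
  obtain ⟨s1, s2, s3, s4, s5⟩ := h2 ι Q δ A B hctx.dist j
  obtain ⟨t1, t2, t3, t4, t5⟩ := h2 ι Q δ B A hdist' j
  have hcom : com B A j = com A B j := Finset.inter_comm _ _
  rw [hcom] at t1 t3 t5
  obtain ⟨_, _, _, hqb, hkl0⟩ := h5 Q 0 0
  have hbig := hctx.big
  have hAB : 0 < A.card * B.card := lt_of_le_of_lt (Nat.zero_le _) hbig
  have hA : 0 < A.card := Nat.pos_of_mul_pos_right hAB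
  have hB : 0 < B.card := Nat.pos_of_mul_pos_left hAB
  have hsplit := h1 ι Q S δ M A B hctx j hj
  -- disjointness
  have hd0 : Disjoint (pur A B j) (pur B A j) := by
    rw [Finset.disjoint_left]
    intro x hx hx'
    exact (Finset.mem_sdiff.1 hx').2 (Finset.mem_sdiff.1 hx).1
  have hd : ∀ P ⊆ com A B j, Disjoint (P ∪ pur A B j) ((com A B j \ P) ∪ pur B A j) := by
    intro P hP
    rw [Finset.disjoint_left]
    intro x hx hx'
    rcases Finset.mem_union.1 hx with hx1 | hx1
    · have hxc := Finset.mem_inter.1 (hP hx1)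
      rcases Finset.mem_union.1 hx' with hx2 | hx2
      · exact (Finset.mem_sdiff.1 hx2).2 hx1
      · exact (Finset.mem_sdiff.1 hx2).2 hxc.1
    · rcases Finset.mem_union.1 hx' with hx2 | hx2
      · exact (Finset.mem_sdiff.1 hx1).2 (Finset.mem_inter.1 (Finset.mem_sdiff.1 hx2).1).2
      · exact (Finset.mem_sdiff.1 hx1).2 (Finset.mem_sdiff.1 hx2).1
  have hsp : ∀ P ⊆ com A B j, (cnt A j P + pcnt A j (pur A B j)) *
      (cnt B j (com A B j \ P) + pcnt B j (pur B A j)) ≤ M := by
    intro P hP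
    have := hsplit _ _ (hd P hP)
    rwa [s1 P hP, t1 _ Finset.sdiff_subset] at this
  -- the common letters
  have hC : (com A B j).Nonempty := by
    by_contra hne
    rw [Finset.not_nonempty_iff_eq_empty] at hne
    rw [hne] at s3 t3 s5
    have hz : cnt A j ∅ = 0 := by simp [cnt]
    have hz' : cnt B j ∅ = 0 := by simp [cnt]
    rw [hz, zero_add] at s3
    rw [hz', zero_add] at t3
    rw [s3] at s2
    rw [t3] at t2
    have hp := hsplit _ _ hd0
    have hkl := hkl0 (pur A B j).card (pur B A j).card (by simpa using s5)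
    have : A.card * B.card ≤ qb Q * M := by
      calc A.card * B.card ≤ ((pur A B j).card * pcnt A j (pur A B j)) *
            ((pur B A j).card * pcnt B j (pur B A j)) := Nat.mul_le_mul s2 t2
        _ = ((pur A B j).card * (pur B A j).card) *
            (pcnt A j (pur A B j) * pcnt B j (pur B A j)) := by ring
        _ ≤ qb Q * M := Nat.mul_le_mul hkl hp
    omega
  have hCc : 1 ≤ (com A B j).card := hC.card_pos
  -- real parameters
  have hA' : (0 : ℝ) < A.card := by exact_mod_cast hA
  have hB' : (0 : ℝ) < B.card := by exact_mod_cast hB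
  have hABr : (0 : ℝ) < A.card * B.card := mul_pos hA' hB'
  set α : Fin (Q + 1) → ℝ := fun x => (cnt A j {x} : ℝ) / A.card with hα
  set β : Fin (Q + 1) → ℝ := fun x => (cnt B j {x} : ℝ) / B.card with hβ
  set a : ℝ := (cnt A j (pur A B j) : ℝ) / A.card with ha
  set b : ℝ := (cnt B j (pur B A j) : ℝ) / B.card with hb
  set z : ℝ := (pcnt A j (pur A B j) : ℝ) / A.card with hz
  set w : ℝ := (pcnt B j (pur B A j) : ℝ) / B.card with hw
  set m : ℝ := (M : ℝ) / (A.card * B.card) with hm
  have sumα : ∀ P : Finset (Fin (Q + 1)), ∑ x ∈ P, α x = (cnt A j P : ℝ) / A.card := by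
    intro P
    rw [s4 P]
    push_cast
    rw [Finset.sum_div]
  have sumβ : ∀ P : Finset (Fin (Q + 1)), ∑ x ∈ P, β x = (cnt B j P : ℝ) / B.card := by
    intro P
    rw [t4 P]
    push_cast
    rw [Finset.sum_div]
  have hαa : ∑ x ∈ com A B j, α x + a = 1 := by
    rw [sumα, ha, ← add_div, div_eq_one_iff_eq hA'.ne']
    exact_mod_cast s3
  have hβb : ∑ x ∈ com A B j, β x + b = 1 := by
    rw [sumβ, hb, ← add_div, div_eq_one_iff_eq hB'.ne']
    exact_mod_cast t3
  have hα0 : ∀ x ∈ com A B j, 0 ≤ α x := fun x _ => div_nonneg (Nat.cast_nonneg _) hA'.le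
  have hβ0 : ∀ x ∈ com A B j, 0 ≤ β x := fun x _ => div_nonneg (Nat.cast_nonneg _) hB'.le
  have hspR : ∀ P ⊆ com A B j, (∑ x ∈ P, α x + z) * (∑ x ∈ com A B j \ P, β x + w) ≤ m := by
    intro P hP
    rw [sumα, sumβ, hz, hw, ← add_div, ← add_div, div_mul_div_comm, hm]
    apply div_le_div_of_nonneg_right _ hABr.le
    exact_mod_cast hsp P hP
  have hpure : PureN Q m (pur A B j).card (pur B A j).card a b z w := by
    refine ⟨hQ, hQ2, div_nonneg (Nat.cast_nonneg _) hABr.le, ?_, by omega,
      div_nonneg (Nat.cast_nonneg _) hA'.le, div_nonneg (Nat.cast_nonneg _) hB'.le, ?_, ?_,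
      div_nonneg (Nat.cast_nonneg _) hA'.le, div_nonneg (Nat.cast_nonneg _) hB'.le, ?_, ?_, ?_, ?_⟩
    · rw [hm, mul_div_assoc', div_le_iff₀ hABr, one_mul]
      exact_mod_cast hbig.le
    · rw [ha, div_le_one hA']
      have : cnt A j (pur A B j) ≤ A.card := by omega
      exact_mod_cast this
    · rw [hb, div_le_one hB']
      have : cnt B j (pur B A j) ≤ B.card := by omega
      exact_mod_cast this
    · rw [ha, hz, mul_div_assoc']
      apply div_le_div_of_nonneg_right _ hA'.le
      exact_mod_cast s2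
    · rw [hb, hw, mul_div_assoc']
      apply div_le_div_of_nonneg_right _ hB'.le
      exact_mod_cast t2
    · have h := hspR ∅ (Finset.empty_subset _)
      rw [Finset.sum_empty, Finset.sdiff_empty, zero_add] at h
      have e : ∑ x ∈ com A B j, β x = 1 - b := by linarith
      rwa [e] at h
    · have h := hspR (com A B j) (Finset.Subset.refl _)
      rw [Finset.sdiff_self, Finset.sum_empty, zero_add] at h
      have e : ∑ x ∈ com A B j, α x = 1 - a := by linarith
      rw [e] at h
      linarith [mul_comm (1 - a + z) w]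
  have hdom := h3 (Q + 1) (com A B j) α β Q m _ _ a b z w hpure hα0 hβ0 hαa hβb hspR s5
  refine ⟨?_, ?_⟩
  · obtain ⟨t, ht, h6, h7⟩ := hdom
    refine ⟨t, ht, ?_, ?_⟩
    · have e := t1N_na A j t
      have h8 : A.card ≤ 2 * cnt A j {t} := by
        have h9 : (1 / 2 : ℝ) ≤ (cnt A j {t} : ℝ) / A.card := h6
        rw [le_div_iff₀ hA'] at h9
        have h10 : (A.card : ℝ) ≤ 2 * cnt A j {t} := by linarith
        exact_mod_cast h10
      omega
    · have e := t1N_na B j t
      have h8 : B.card ≤ 2 * cnt B j {t} := by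
        have h9 : (1 / 2 : ℝ) ≤ (cnt B j {t} : ℝ) / B.card := h7
        rw [le_div_iff₀ hB'] at h9
        have h10 : (B.card : ℝ) ≤ 2 * cnt B j {t} := by linarith
        exact_mod_cast h10
      omega
  · intro hcrit
    by_contra hne
    have hC2 : 2 ≤ (com A B j).card := by omega
    have hnc := h4 (Q + 1) (com A B j) α β Q m _ _ a b z w hpure hα0 hβ0 hαa hβb hspR hC2
      s5 hdom
    have e1 : ∑ x ∈ com A B j, α x * β x =
        ((∑ x ∈ com A B j, cnt A j {x} * cnt B j {x} : ℕ) : ℝ) / (A.card * B.card) := by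
      push_cast
      rw [Finset.sum_div]
      apply Finset.sum_congr rfl
      intro x _
      simp only [hα, hβ]
      rw [div_mul_div_comm]
    rw [e1, hm, mul_div_assoc', sub_le_iff_le_add, ← add_div, le_div_iff₀ hABr,
      one_mul] at hnc
    have e2 : A.card * B.card ≤ Q * M + ∑ x ∈ com A B j, cnt A j {x} * cnt B j {x} := by
      exact_mod_cast hnc
    have e3 : ∑ x ∈ com A B j, cnt A j {x} * cnt B j {x} ≤
        ∑ x : Fin (Q + 1), cnt A j {x} * cnt B j {x} :=
      Finset.sum_le_sum_of_subset (Finset.subset_univ _)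
    omega

end R745CD
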