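import Pool.Agent.R745.CDN.Defs

namespace R745CD
open Finset H825CD

lemma T2N_cnt {ι : Type} [Fintype ι] [DecidableEq ι] {Q : ℕ} (A : Finset (ι → Fin (Q + 1)))
    (j : ι) (x : Fin (Q + 1)) : cnt A j {x} + na A j x = A.card := by
  unfold cnt na
  have h := Finset.card_filter_add_card_filter_not (s := A) (fun a : ι → Fin (Q + 1) => a j = x)
  simpa using h

lemma T2N_na_le {ι : Type} [Fintype ι] [DecidableEq ι] {Q : ℕ} (A : Finset (ι → Fin (Q + 1)))
    (j : ι) (x : Fin (Q + 1)) : na A j x ≤ A.card := Finset.card_filter_le _ _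

/-- data of one coordinate, normalised -/
structure T2NCo (Q : ℕ) (m : ℝ) (K L : ℕ) (a b z w : ℝ) : Prop where
  hK : 1 ≤ K
  hL : 1 ≤ L
  hKL : K + L ≤ Q
  ha0 : 0 < a
  hb0 : 0 < b
  ha2 : a ≤ 1 / 2
  hb2 : b ≤ 1 / 2
  ha : a ≤ K * z
  hb : b ≤ L * w
  hI1 : z * (1 - b) ≤ m
  hI2 : w * (1 - a) ≤ m

lemma T2N_co (hsy : S_symm) (hfi : S_fib) (hs1 : S_split1)
    {ι : Type} [Fintype ι] [DecidableEq ι] {Q : ℕ} {S : Finset ι} {δ M : ℕ}
    {A B : Finset (ι → Fin (Q + 1))} (hQ : 7 ≤ Q) (hc : Ctx S δ M A B) {j : ι} (hj : j ∈ S)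
    {x : Fin (Q + 1)} (hx : x ∈ com A B j) (hA2 : 2 * na A j x ≤ A.card)
    (hB2 : 2 * na B j x ≤ B.card) (hna : na A j x ≠ 0) (hnb : na B j x ≠ 0) :
    T2NCo Q ((M : ℝ) / (A.card * B.card)) (max 1 (pur A B j).card)
      (max 1 (pur B A j).card) ((na A j x : ℝ) / A.card) ((na B j x : ℝ) / B.card)
      ((nz A j x : ℝ) / A.card) ((nz B j x : ℝ) / B.card) := by
  have hc' := hsy ι Q S δ M A B hc
  have hx' : x ∈ com B A j := by
    unfold com at hx ⊢; rw [Finset.inter_comm]; exact hx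
  have hV : 0 < A.card * B.card := lt_of_le_of_lt (Nat.zero_le _) hc.big
  have hA0 : 0 < A.card := Nat.pos_of_mul_pos_right hV |> fun h => by
    rcases Nat.eq_zero_or_pos A.card with h0 | h0
    · rw [h0] at hV; simp at hV
    · exact h0
  have hB0 : 0 < B.card := by
    rcases Nat.eq_zero_or_pos B.card with h0 | h0
    · rw [h0] at hV; simp at hV
    · exact h0
  obtain ⟨f1, f2⟩ := hfi ι Q δ A B hc.dist j x hx
  obtain ⟨g1, -⟩ := hfi ι Q δ B A hc'.dist j x hx'
  have hKL := f2 (by omega) hna hnb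
  obtain ⟨s1, -⟩ := hs1 ι Q S δ M A B hc j hj x
  obtain ⟨s2, -⟩ := hs1 ι Q S δ M B A hc' j hj x
  have la := T2N_na_le A j x
  have lb := T2N_na_le B j x
  have hX : (0 : ℝ) < A.card := by exact_mod_cast hA0
  have hY : (0 : ℝ) < B.card := by exact_mod_cast hB0
  have f1' : (na A j x : ℝ) ≤ (max 1 (pur A B j).card : ℕ) * nz A j x := by exact_mod_cast f1
  have g1' : (na B j x : ℝ) ≤ (max 1 (pur B A j).card : ℕ) * nz B j x := by exact_mod_cast g1
  have s1' : (nz A j x : ℝ) * (B.card - na B j x) ≤ M := by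
    have : ((nz A j x * (B.card - na B j x) : ℕ) : ℝ) ≤ M := by exact_mod_cast s1
    rwa [Nat.cast_mul, Nat.cast_sub lb] at this
  have s2' : (nz B j x : ℝ) * (A.card - na A j x) ≤ M := by
    have : ((nz B j x * (A.card - na A j x) : ℕ) : ℝ) ≤ M := by exact_mod_cast s2
    rwa [Nat.cast_mul, Nat.cast_sub la] at this
  set K : ℝ := ((max 1 (pur A B j).card : ℕ) : ℝ)
  set L : ℝ := ((max 1 (pur B A j).card : ℕ) : ℝ)
  set X : ℝ := (A.card : ℝ)
  set Y : ℝ := (B.card : ℝ)
  have hna' : (0 : ℝ) < na A j x := by exact_mod_cast Nat.pos_of_ne_zero hna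
  have hnb' : (0 : ℝ) < na B j x := by exact_mod_cast Nat.pos_of_ne_zero hnb
  have ha0 : 0 < (na A j x : ℝ) / X := by positivity
  have hb0 : 0 < (na B j x : ℝ) / Y := by positivity
  have ha2 : (na A j x : ℝ) / X ≤ 1 / 2 := by
    rw [div_le_iff₀ hX]
    have : (2 * na A j x : ℝ) ≤ (A.card : ℝ) := by exact_mod_cast hA2
    show (na A j x : ℝ) ≤ 1 / 2 * (A.card : ℝ)
    linarith
  have hb2 : (na B j x : ℝ) / Y ≤ 1 / 2 := by
    rw [div_le_iff₀ hY]
    have : (2 * na B j x : ℝ) ≤ (B.card : ℝ) := by exact_mod_cast hB2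
    show (na B j x : ℝ) ≤ 1 / 2 * (B.card : ℝ)
    linarith
  have ha : (na A j x : ℝ) / X ≤ K * ((nz A j x : ℝ) / X) := by
    rw [← mul_div_assoc]; exact div_le_div_of_nonneg_right f1' hX.le
  have hb : (na B j x : ℝ) / Y ≤ L * ((nz B j x : ℝ) / Y) := by
    rw [← mul_div_assoc]; exact div_le_div_of_nonneg_right g1' hY.le
  have hI1 : (nz A j x : ℝ) / X * (1 - (na B j x : ℝ) / Y) ≤ M / (X * Y) := by
    have : (nz A j x : ℝ) / X * (1 - (na B j x : ℝ) / Y)
        = ((nz A j x : ℝ) * (Y - na B j x)) / (X * Y) := by field_simp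
    rw [this]; exact div_le_div_of_nonneg_right s1' (by positivity)
  have hI2 : (nz B j x : ℝ) / Y * (1 - (na A j x : ℝ) / X) ≤ M / (X * Y) := by
    have : (nz B j x : ℝ) / Y * (1 - (na A j x : ℝ) / X)
        = ((nz B j x : ℝ) * (X - na A j x)) / (X * Y) := by field_simp
    rw [this]; exact div_le_div_of_nonneg_right s2' (by positivity)
  exact ⟨le_max_left _ _, le_max_left _ _, hKL, ha0, hb0, ha2, hb2, ha, hb, hI1, hI2⟩

lemma T2N_swap {Q : ℕ} {m : ℝ} {k l K L : ℕ} {aj bj zj wj ai bi zi wi p r : ℝ}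
    (h : FinN Q m k l K L aj bj zj wj ai bi zi wi p r) :
    FinN Q m l k L K bj aj wj zj bi ai wi zi r p :=
  { hm := h.hm, hm0 := h.hm0, hk := h.hl, hl := h.hk,
    hkl := by linarith [h.hkl], hK := h.hL, hL := h.hK, hKL := by linarith [h.hKL],
    haj0 := h.hbj0, hbj0 := h.haj0, hai0 := h.hbi0, hbi0 := h.hai0, haj2 := h.hbj2,
    hbj2 := h.haj2, hai2 := h.hbi2, hbi2 := h.hai2, haj := h.hbj, hbj := h.haj, hai := h.hbi,
    hbi := h.hai, hJ1 := h.hJ2, hJ2 := h.hJ1, hJ3 := by linarith [h.hJ3, mul_comm aj bj],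
    hI1 := h.hI2, hI2 := h.hI1, hp := h.hr, hr := h.hp }

theorem tN_false (hsy : S_symm) (hst : S_struct) (hcr : S_crit) (hfi : S_fib)
    (hs1 : S_split1) (hV : S_V) (hSS : S_SS) (hre : S_rel) (hpa : S_partner) (_hFF : S_FF)
    (hre2 : N_rel) (hfin : ∀ Q : ℕ, 7 ≤ Q → Q ≤ 10 → N_final Q)
    (htw : ∀ Q : ℕ, 7 ≤ Q → Q ≤ 10 → N_twin Q) (hco : N_coord) : N_false := by
  intro ι _ _ Q S δ M A B hQ hQ2 hc
  have hc' := hsy ι Q S δ M A B hc
  obtain ⟨j, hj, hjc⟩ := hcr ι Q S δ M A B hc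
  obtain ⟨⟨x, hx, hxA, hxB⟩, hone⟩ := hco ι Q S δ M A B hQ hQ2 hc j hj
  have hcom : com A B j = {x} := by
    obtain ⟨y, hy⟩ := Finset.card_eq_one.mp (hone hjc)
    rw [hy] at hx ⊢
    rw [Finset.mem_singleton] at hx; rw [hx]
  have hcom' : com B A j = {x} := by
    rw [← hcom]; unfold com; exact Finset.inter_comm _ _
  have hx' : x ∈ com B A j := by rw [hcom']; exact Finset.mem_singleton_self x
  have hVpos : 0 < A.card * B.card := lt_of_le_of_lt (Nat.zero_le _) hc.big
  have hA0 : 0 < A.card := by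
    rcases Nat.eq_zero_or_pos A.card with h0 | h0
    · rw [h0] at hVpos; simp at hVpos
    · exact h0
  have hB0 : 0 < B.card := by
    rcases Nat.eq_zero_or_pos B.card with h0 | h0
    · rw [h0] at hVpos; simp at hVpos
    · exact h0
  have cA := T2N_cnt A j x
  have cB := T2N_cnt B j x
  -- the critical inequality
  have hj3 : Q * M + cnt A j {x} * cnt B j {x} < A.card * B.card := by
    refine lt_of_le_of_lt ?_ hjc
    refine Nat.add_le_add_left ?_ _
    exact Finset.single_le_sum (f := fun x : Fin (Q + 1) => cnt A j {x} * cnt B j {x})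
      (fun _ _ => Nat.zero_le _) (Finset.mem_univ x)
  have hst1 := (hst ι Q δ A B hc.dist j).2.2.2.2
  rw [hcom, Finset.card_singleton] at hst1
  obtain ⟨f1, f2⟩ := hfi ι Q δ A B hc.dist j x hx
  obtain ⟨g1, -⟩ := hfi ι Q δ B A hc'.dist j x hx'
  obtain ⟨s1, s1b⟩ := hs1 ι Q S δ M A B hc j hj x
  obtain ⟨s2, s2b⟩ := hs1 ι Q S δ M B A hc' j hj x
  have s1c := s1b hcom
  have s2c := s2b hcom'
  have hna : na A j x ≠ 0 := by
    intro h0
    rw [h0] at cA s2
    have hL : max 1 (pur B A j).card ≤ Q := by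
      have : 1 ≤ Q := by omega
      exact max_le this (by omega)
    have h1 : cnt A j {x} = A.card := by omega
    rw [h1] at hj3
    have h2 : Q * M < A.card * na B j x := by
      have : A.card * B.card = A.card * cnt B j {x} + A.card * na B j x := by
        rw [← cB, Nat.mul_add]
      omega
    have h3 : A.card * na B j x ≤ Q * M := by
      calc A.card * na B j x ≤ A.card * (max 1 (pur B A j).card * nz B j x) :=
            Nat.mul_le_mul_left _ g1
        _ = max 1 (pur B A j).card * (nz B j x * (A.card - 0)) := by rw [Nat.sub_zero]; ring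
        _ ≤ Q * M := Nat.mul_le_mul hL s2
    omega
  have hnb : na B j x ≠ 0 := by
    intro h0
    rw [h0] at cB s1
    have hL : max 1 (pur A B j).card ≤ Q := by
      have : 1 ≤ Q := by omega
      exact max_le this (by omega)
    have h1 : cnt B j {x} = B.card := by omega
    rw [h1] at hj3
    have h2 : Q * M < B.card * na A j x := by
      have : A.card * B.card = cnt A j {x} * B.card + B.card * na A j x := by
        rw [← cA]; ring
      omega
    have h3 : B.card * na A j x ≤ Q * M := by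
      calc B.card * na A j x ≤ B.card * (max 1 (pur A B j).card * nz A j x) :=
            Nat.mul_le_mul_left _ f1
        _ = max 1 (pur A B j).card * (nz A j x * (B.card - 0)) := by rw [Nat.sub_zero]; ring
        _ ≤ Q * M := Nat.mul_le_mul hL s1
    omega
  -- the partner
  obtain ⟨i, hi, hij, hin⟩ := hpa ι Q S δ A B hc.supA hc.supB hc.dist j x hcom hna hnb
  obtain ⟨⟨y, hy, hyA, hyB⟩, -⟩ := hco ι Q S δ M A B hQ hQ2 hc i hi
  obtain ⟨hia, hib⟩ := hin y
  have hy' : y ∈ com B A i := by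
    unfold com at hy ⊢; rw [Finset.inter_comm]; exact hy
  have CJ := T2N_co hsy hfi hs1 hQ hc hj hx hxA hxB hna hnb
  have CI := T2N_co hsy hfi hs1 hQ hc hi hy hyA hyB hia hib
  have SSA := hSS ι Q S δ M A B hc j hj i hi hij x y
  have SSB := hSS ι Q S δ M B A hc' j hj i hi hij x y
  obtain ⟨ra1, ra2, ra3⟩ := hre ι Q δ A B hc.dist j i hij x y hcom hy
  obtain ⟨rb1, rb2, rb3⟩ := hre ι Q δ B A hc'.dist j i hij x y hcom' hy'
  obtain ⟨qa1, qa2⟩ := hre2 ι Q δ A B hc.dist j i hij x y hy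
  obtain ⟨qb1, qb2⟩ := hre2 ι Q δ B A hc'.dist j i hij x y hy'
  have hX : (0 : ℝ) < A.card := by exact_mod_cast hA0
  have hY : (0 : ℝ) < B.card := by exact_mod_cast hB0
  have laj := T2N_na_le A j x
  have lbj := T2N_na_le B j x
  have hF2 : FinN Q ((M : ℝ) / (A.card * B.card)) (max 1 (pur A B j).card)
      (max 1 (pur B A j).card) (max 1 (pur A B i).card) (max 1 (pur B A i).card)
      ((na A j x : ℝ) / A.card) ((na B j x : ℝ) / B.card)
      ((nz A j x : ℝ) / A.card) ((nz B j x : ℝ) / B.card)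
      ((na A i y : ℝ) / A.card) ((na B i y : ℝ) / B.card)
      ((nz A i y : ℝ) / A.card) ((nz B i y : ℝ) / B.card)
      ((p00 A j i x y : ℝ) / A.card) ((p00 B j i x y : ℝ) / B.card) := by
    have hJ1 : (nz A j x : ℝ) / A.card * (1 - (na B j x : ℝ) / B.card + (nz B j x : ℝ) / B.card)
        ≤ M / (A.card * B.card) := by
      have h1 : ((nz A j x * (B.card - na B j x + nz B j x) : ℕ) : ℝ) ≤ M := by exact_mod_cast s1c
      rw [Nat.cast_mul, Nat.cast_add, Nat.cast_sub lbj] at h1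
      have : (nz A j x : ℝ) / A.card * (1 - (na B j x : ℝ) / B.card + (nz B j x : ℝ) / B.card)
        = ((nz A j x : ℝ) * (B.card - na B j x + nz B j x)) / (A.card * B.card) := by field_simp
      rw [this]; exact div_le_div_of_nonneg_right h1 (by positivity)
    have hJ2 : (nz B j x : ℝ) / B.card * (1 - (na A j x : ℝ) / A.card + (nz A j x : ℝ) / A.card)
        ≤ M / (A.card * B.card) := by
      have h1 : ((nz B j x * (A.card - na A j x + nz A j x) : ℕ) : ℝ) ≤ M := by exact_mod_cast s2c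
      rw [Nat.cast_mul, Nat.cast_add, Nat.cast_sub laj] at h1
      have : (nz B j x : ℝ) / B.card * (1 - (na A j x : ℝ) / A.card + (nz A j x : ℝ) / A.card)
        = ((nz B j x : ℝ) * (A.card - na A j x + nz A j x)) / (A.card * B.card) := by field_simp
      rw [this]; exact div_le_div_of_nonneg_right h1 (by positivity)
    have hJ3 : (Q : ℝ) * (M / (A.card * B.card)) < (na A j x : ℝ) / A.card
        + (na B j x : ℝ) / B.card - (na A j x : ℝ) / A.card * ((na B j x : ℝ) / B.card) := by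
      have h1 : ((Q : ℝ) * M + cnt A j {x} * cnt B j {x}) < A.card * B.card := by
        exact_mod_cast hj3
      have h2 : (cnt A j {x} : ℝ) = A.card - na A j x := by
        rw [eq_sub_iff_add_eq]; exact_mod_cast cA
      have h3 : (cnt B j {x} : ℝ) = B.card - na B j x := by
        rw [eq_sub_iff_add_eq]; exact_mod_cast cB
      rw [h2, h3] at h1
      have e1 : (Q : ℝ) * (M / (A.card * B.card)) = (Q * M) / (A.card * B.card) := by ring
      have e2 : (na A j x : ℝ) / A.card
        + (na B j x : ℝ) / B.card - (na A j x : ℝ) / A.card * ((na B j x : ℝ) / B.card)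
        = (A.card * B.card - (A.card - na A j x) * (B.card - na B j x)) / (A.card * B.card) := by
        field_simp; ring
      rw [e1, e2]
      exact div_lt_div_of_pos_right (by linarith) (by positivity)
    have hzj : 0 < (nz A j x : ℝ) / A.card := by
      have h1 := CJ.ha
      have h2 := CJ.ha0
      have h3 : (1 : ℝ) ≤ ((max 1 (pur A B j).card : ℕ) : ℝ) := by exact_mod_cast CJ.hK
      by_contra hcon
      have hz0 : (nz A j x : ℝ) / A.card ≤ 0 := not_lt.mp hcon
      nlinarith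
    have hwj : 0 ≤ (nz B j x : ℝ) / B.card := by positivity
    have hm0 : (0 : ℝ) < M / (A.card * B.card) := by
      have h1 := CJ.hb2
      have h2 : 0 < 1 - (na B j x : ℝ) / B.card + (nz B j x : ℝ) / B.card := by linarith
      exact lt_of_lt_of_le (mul_pos hzj h2) hJ1
    have hm : (qb Q : ℝ) * (M / (A.card * B.card)) ≤ 1 := by
      rw [← mul_div_assoc, div_le_one (by positivity)]
      exact_mod_cast hc.big.le
    have hp : 1 - (na A j x : ℝ) / A.card - (na A i y : ℝ) / A.card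
        ≤ (p00 A j i x y : ℝ) / A.card := by
      have h1 : (A.card : ℝ) ≤ p00 A j i x y + na A j x + na A i y := by exact_mod_cast ra3
      rw [le_div_iff₀ hX]
      have : (1 - (na A j x : ℝ) / A.card - (na A i y : ℝ) / A.card) * A.card
        = A.card - na A j x - na A i y := by field_simp
      rw [this]; linarith
    have hr : 1 - (na B j x : ℝ) / B.card - (na B i y : ℝ) / B.card
        ≤ (p00 B j i x y : ℝ) / B.card := by
      have h1 : (B.card : ℝ) ≤ p00 B j i x y + na B j x + na B i y := by exact_mod_cast rb3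
      rw [le_div_iff₀ hY]
      have : (1 - (na B j x : ℝ) / B.card - (na B i y : ℝ) / B.card) * B.card
        = B.card - na B j x - na B i y := by field_simp
      rw [this]; linarith
    exact
    { hm := hm, hm0 := hm0, hk := CJ.hK, hl := CJ.hL,
      hkl := CJ.hKL, hK := CI.hK, hL := CI.hL, hKL := CI.hKL, haj0 := CJ.ha0, hbj0 := CJ.hb0,
      hai0 := CI.ha0, hbi0 := CI.hb0, haj2 := CJ.ha2, hbj2 := CJ.hb2, hai2 := CI.ha2,
      hbi2 := CI.hb2, haj := CJ.ha, hbj := CJ.hb, hai := CI.ha, hbi := CI.hb, hJ1 := hJ1,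
      hJ2 := hJ2, hJ3 := hJ3, hI1 := CI.hI1, hI2 := CI.hI2, hp := hp, hr := hr }
  -- normalised two-coordinate quantities
  have hSSA : (qb Q : ℝ) * ((p00 A j i x y : ℝ) / A.card * ((z11 B j i x y : ℝ) / B.card))
      ≤ M / (A.card * B.card) := by
    have h1 : ((qb Q : ℝ) * (p00 A j i x y * z11 B j i x y)) ≤ M := by exact_mod_cast SSA
    have : (qb Q : ℝ) * ((p00 A j i x y : ℝ) / A.card * ((z11 B j i x y : ℝ) / B.card))
      = ((qb Q : ℝ) * (p00 A j i x y * z11 B j i x y)) / (A.card * B.card) := by field_simp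
    rw [this]; exact div_le_div_of_nonneg_right h1 (by positivity)
  have hSSB : (qb Q : ℝ) * ((p00 B j i x y : ℝ) / B.card * ((z11 A j i x y : ℝ) / A.card))
      ≤ M / (A.card * B.card) := by
    have h1 : ((qb Q : ℝ) * (p00 B j i x y * z11 A j i x y)) ≤ M := by exact_mod_cast SSB
    have : (qb Q : ℝ) * ((p00 B j i x y : ℝ) / B.card * ((z11 A j i x y : ℝ) / A.card))
      = ((qb Q : ℝ) * (p00 B j i x y * z11 A j i x y)) / (A.card * B.card) := by field_simp
    rw [this]; exact div_le_div_of_nonneg_right h1 (by positivity)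
  have hRA1 : (nz A j x : ℝ) / A.card ≤ (z10 A j i x y : ℝ) / A.card
      + (max 1 (pur A B i).card : ℕ) * ((z11 A j i x y : ℝ) / A.card) := by
    have h1 : (nz A j x : ℝ) ≤ z10 A j i x y + (max 1 (pur A B i).card : ℕ) * z11 A j i x y := by
      exact_mod_cast ra1
    rw [← mul_div_assoc, ← add_div]; exact div_le_div_of_nonneg_right h1 hX.le
  have hRA2 : (z01 A j i x y : ℝ) / A.card ≤ (nz A i y : ℝ) / A.card := by
    have h1 : (z01 A j i x y : ℝ) ≤ nz A i y := by exact_mod_cast qa2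
    exact div_le_div_of_nonneg_right h1 hX.le
  have hRA3 : 1 - (na A j x : ℝ) / A.card
      - (max 1 (pur A B i).card : ℕ) * ((z01 A j i x y : ℝ) / A.card)
      ≤ (p00 A j i x y : ℝ) / A.card := by
    have h1 : (A.card : ℝ) ≤ p00 A j i x y + na A j x
        + (max 1 (pur A B i).card : ℕ) * z01 A j i x y := by exact_mod_cast qa1
    rw [le_div_iff₀ hX]
    have : (1 - (na A j x : ℝ) / A.card
      - (max 1 (pur A B i).card : ℕ) * ((z01 A j i x y : ℝ) / A.card)) * A.card
        = A.card - na A j x - (max 1 (pur A B i).card : ℕ) * z01 A j i x y := by field_simp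
    rw [this]; linarith
  have hRB1 : (nz B j x : ℝ) / B.card ≤ (z10 B j i x y : ℝ) / B.card
      + (max 1 (pur B A i).card : ℕ) * ((z11 B j i x y : ℝ) / B.card) := by
    have h1 : (nz B j x : ℝ) ≤ z10 B j i x y + (max 1 (pur B A i).card : ℕ) * z11 B j i x y := by
      exact_mod_cast rb1
    rw [← mul_div_assoc, ← add_div]; exact div_le_div_of_nonneg_right h1 hY.le
  have hRB2 : (z01 B j i x y : ℝ) / B.card ≤ (nz B i y : ℝ) / B.card := by
    have h1 : (z01 B j i x y : ℝ) ≤ nz B i y := by exact_mod_cast qb2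
    exact div_le_div_of_nonneg_right h1 hY.le
  have hRB3 : 1 - (na B j x : ℝ) / B.card
      - (max 1 (pur B A i).card : ℕ) * ((z01 B j i x y : ℝ) / B.card)
      ≤ (p00 B j i x y : ℝ) / B.card := by
    have h1 : (B.card : ℝ) ≤ p00 B j i x y + na B j x
        + (max 1 (pur B A i).card : ℕ) * z01 B j i x y := by exact_mod_cast qb1
    rw [le_div_iff₀ hY]
    have : (1 - (na B j x : ℝ) / B.card
      - (max 1 (pur B A i).card : ℕ) * ((z01 B j i x y : ℝ) / B.card)) * B.card
        = B.card - na B j x - (max 1 (pur B A i).card : ℕ) * z01 B j i x y := by field_simp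
    rw [this]; linarith
  by_cases tA : Twin A j i x y
  · have hz : z10 A j i x y = 0 := by
      unfold z10
      rw [Finset.card_eq_zero, Finset.image_eq_empty, Finset.filter_eq_empty_iff]
      rintro a ha ⟨h1, h2⟩
      exact h1 ((tA a ha).mpr h2)
    refine htw Q hQ hQ2 _ _ _ _ _ _ _ _ _ _ _ _ _ _ _ ((z11 A j i x y : ℝ) / A.card) hF2
      (by positivity) ?_ hSSB
    rw [hz] at hRA1; simpa using hRA1
  by_cases tB : Twin B j i x y
  · have hz : z10 B j i x y = 0 := by
      unfold z10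
      rw [Finset.card_eq_zero, Finset.image_eq_empty, Finset.filter_eq_empty_iff]
      rintro a ha ⟨h1, h2⟩
      exact h1 ((tB a ha).mpr h2)
    refine htw Q hQ hQ2 _ _ _ _ _ _ _ _ _ _ _ _ _ _ _ ((z11 B j i x y : ℝ) / B.card)
      (T2N_swap hF2)
      (by positivity) ?_ hSSA
    rw [hz] at hRB1; simpa using hRB1
  have V1 := hV ι Q S δ M A B hc j hj i hi hij x y hcom tA
  have V2 := hV ι Q S δ M B A hc' j hj i hi hij x y hcom' tB
  have V1' : (p00 A j i x y : ℝ) / A.card * ((p00 B j i x y : ℝ) / B.card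
      + 2 * Q * ((z10 B j i x y : ℝ) / B.card + (z01 B j i x y : ℝ) / B.card)
      + Q ^ 2 * ((z11 B j i x y : ℝ) / B.card)) ≤ 1 := by
    have h1 : (p00 A j i x y : ℝ) * (p00 B j i x y + 2 * Q * (z10 B j i x y + z01 B j i x y)
      + Q ^ 2 * z11 B j i x y) ≤ A.card * B.card := by exact_mod_cast V1
    have : (p00 A j i x y : ℝ) / A.card * ((p00 B j i x y : ℝ) / B.card
      + 2 * Q * ((z10 B j i x y : ℝ) / B.card + (z01 B j i x y : ℝ) / B.card)
      + Q ^ 2 * ((z11 B j i x y : ℝ) / B.card))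
      = ((p00 A j i x y : ℝ) * (p00 B j i x y + 2 * Q * (z10 B j i x y + z01 B j i x y)
      + Q ^ 2 * z11 B j i x y)) / (A.card * B.card) := by field_simp
    rw [this, div_le_one (by positivity)]; exact h1
  have V2' : (p00 B j i x y : ℝ) / B.card * ((p00 A j i x y : ℝ) / A.card
      + 2 * Q * ((z10 A j i x y : ℝ) / A.card + (z01 A j i x y : ℝ) / A.card)
      + Q ^ 2 * ((z11 A j i x y : ℝ) / A.card)) ≤ 1 := by
    have h1 : (p00 B j i x y : ℝ) * (p00 A j i x y + 2 * Q * (z10 A j i x y + z01 A j i x y)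
      + Q ^ 2 * z11 A j i x y) ≤ B.card * A.card := by exact_mod_cast V2
    have : (p00 B j i x y : ℝ) / B.card * ((p00 A j i x y : ℝ) / A.card
      + 2 * Q * ((z10 A j i x y : ℝ) / A.card + (z01 A j i x y : ℝ) / A.card)
      + Q ^ 2 * ((z11 A j i x y : ℝ) / A.card))
      = ((p00 B j i x y : ℝ) * (p00 A j i x y + 2 * Q * (z10 A j i x y + z01 A j i x y)
      + Q ^ 2 * z11 A j i x y)) / (B.card * A.card) := by field_simp
    rw [this, div_le_one (by positivity)]; exact h1
  exact hfin Q hQ hQ2 _ _ _ _ _ _ _ _ _ _ _ _ _ _ _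
    ((z10 A j i x y : ℝ) / A.card) ((z01 A j i x y : ℝ) / A.card) ((z11 A j i x y : ℝ) / A.card)
    ((z10 B j i x y : ℝ) / B.card) ((z01 B j i x y : ℝ) / B.card) ((z11 B j i x y : ℝ) / B.card)
    hF2 (by positivity) (by positivity) (by positivity) (by positivity) (by positivity)
    (by positivity) V1' V2' hRA1 hRB1 hRA2 hRB2 hRA3 hRB3 hSSA hSSB

end R745CD
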